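import Pool.Agent.L0h18.HZ.Defs

/-!
# Project HZ: RIG2
-/

set_option autoImplicit false

namespace Pool.Agent.L0h88.HZ

open Pool.Agent.Y167 (Sys)
open Pool.Agent.Y167.Sys
open Pool.Agent.L0h18.HZ

variable {A : Type} [Ring A] [Algebra ℝ A] {r ρ : ℕ}

/-- the trace form -/
noncomputable def bt (S : Sys A r) (Φ : (Fin ρ → ℝ) →ₗ[ℝ] A) :
    (Fin ρ → ℝ) →ₗ[ℝ] (Fin ρ → ℝ) →ₗ[ℝ] ℝ :=
  ((LinearMap.mul ℝ A).compl₁₂ Φ Φ).compr₂ S.tr

lemma bt_apply (S : Sys A r) (Φ : (Fin ρ → ℝ) →ₗ[ℝ] A) (x y : Fin ρ → ℝ) :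
    bt S Φ x y = S.tr (Φ x * Φ y) := rfl

lemma st_phi {S : Sys A r} {Φ : (Fin ρ → ℝ) →ₗ[ℝ] A} (h : Herm S Φ) (x : Fin ρ → ℝ) :
    S.st (Φ x) = Φ x := (h.range (Φ x)).2 ⟨x, rfl⟩

lemma bt_surj {S : Sys A r} {Φ : (Fin ρ → ℝ) →ₗ[ℝ] A} (h : Herm S Φ) (f : (Fin ρ → ℝ) →ₗ[ℝ] ℝ) :
    ∃ b, bt S Φ b = f := by
  have h1 : Function.Injective (bt S Φ) := by
    rw [injective_iff_map_eq_zero]
    intro x hx
    by_contra hx0
    have h2 : Φ x ≠ 0 := fun h3 => hx0 (h.inj (by rw [h3, map_zero]))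
    have h3 := tr_st_mul_pos (S := S) h2
    rw [st_phi h, ← bt_apply, hx] at h3
    simp at h3
  have h2 : Function.Surjective (bt S Φ) := by
    refine (LinearMap.injective_iff_surjective_of_finrank_eq_finrank ?_).1 h1
    exact (Subspace.dual_finrank_eq (K := ℝ) (V := Fin ρ → ℝ)).symm
  exact h2 f

theorem rig2 : S_TOP → S_RIG1 → S_RIG2 := by
  intro _ hR A _ _ r ρ S Φ h D hD hpt hnil hne
  have hpsd : psd S Φ ⊆ D := hR A r ρ S Φ h D hD hnil hne
  let D' : Set (Fin ρ → ℝ) := {b | ∀ d ∈ D, 0 ≤ bt S Φ b d}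
  have hcc : CCone D' := by
    refine ⟨?_, ?_, ?_⟩
    · have : D' = ⋂ d ∈ D, {b | 0 ≤ (bt S Φ).flip d b} := by
        ext b
        simp [D']
      rw [this]
      refine isClosed_biInter fun d _ => ?_
      exact isClosed_le continuous_const ((bt S Φ).flip d).continuous_of_finiteDimensional
    · intro x hx z hz d hd
      rw [map_add, LinearMap.add_apply]
      exact add_nonneg (hx d hd) (hz d hd)
    · intro t ht x hx d hd
      rw [map_smul, LinearMap.smul_apply, smul_eq_mul]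
      exact mul_nonneg ht (hx d hd)
  have hcyc : ∀ (b d y : A), S.tr (S.st y * b * y * d) = S.tr (b * (y * d * S.st y)) := by
    intro b d y
    rw [mul_assoc, mul_assoc, S.tr_comm, ← mul_assoc, mul_assoc b, mul_assoc]
  have hN : (0 : ℝ) < (S.N : ℝ) := by exact_mod_cast S.N_pos
  have hnil' : NilStable S Φ D' := by
    intro y hy hyy b hb b' hb' d hd
    have hy' := S.N_st y hy
    have hyy' : ((S.N : ℝ) • S.st y) * ((S.N : ℝ) • S.st y) = 0 := by
      rw [smul_mul_smul_comm, ← S.st_mul, hyy, map_zero, smul_zero]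
    have hst : S.st ((S.N : ℝ) • S.st y) = (S.N : ℝ) • y := by
      rw [map_smul, S.st_st]
    have hsa : S.st (S.st ((S.N : ℝ) • S.st y) * Φ d * ((S.N : ℝ) • S.st y)) =
        S.st ((S.N : ℝ) • S.st y) * Φ d * ((S.N : ℝ) • S.st y) := by
      rw [S.st_mul, S.st_mul, S.st_st, st_phi h, mul_assoc]
    obtain ⟨d', hd'⟩ := (h.range _).1 hsa
    have hd'D : d' ∈ D := hnil _ hy' hyy' d hd d' hd'
    have h1 := hb d' hd'D
    rw [bt_apply, hd', hst] at h1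
    rw [bt_apply, hb', hcyc]
    have h2 : S.tr (Φ b * ((S.N : ℝ) • y * Φ d * (S.N : ℝ) • S.st y)) =
        ((S.N : ℝ) * S.N) * S.tr (Φ b * (y * Φ d * S.st y)) := by
      rw [smul_mul_assoc, smul_mul_smul_comm, mul_smul_comm, map_smul, smul_eq_mul]
    rw [h2] at h1
    exact (mul_nonneg_iff_of_pos_left (mul_pos hN hN)).1 h1
  obtain ⟨f, c, hc, hf⟩ := Pool.Agent.N165.KM.exists_pos_functional hD.closed hD.add hD.smul hpt
  obtain ⟨b, hb⟩ := bt_surj h (f : (Fin ρ → ℝ) →ₗ[ℝ] ℝ)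
  have hbf : ∀ d, bt S Φ b d = f d := fun d => by rw [hb]; rfl
  have hbD : b ∈ D' := by
    intro d hd
    rw [hbf]
    exact le_trans (mul_nonneg hc.le (norm_nonneg _)) (hf d hd)
  have hbpd : b ∈ pd S Φ := by
    refine pd_iff'.2 ⟨st_phi h b, fun x hx => ?_⟩
    have h1 : S.Psd (x * S.st x) := psd_mul_st x
    obtain ⟨d, hd⟩ := (h.range _).1 h1.sa
    have hdD : d ∈ D := hpsd (by
      change S.Psd (Φ d)
      rw [hd]
      exact h1)
    have hd0 : d ≠ 0 := by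
      rintro rfl
      rw [map_zero] at hd
      have h2 := tr_st_mul_pos (S := S) hx
      rw [S.tr_comm, ← hd, map_zero] at h2
      exact lt_irrefl _ h2
    have h2 : 0 < bt S Φ b d := by
      rw [hbf]
      exact lt_of_lt_of_le (mul_pos hc (norm_pos_iff.2 hd0)) (hf d hdD)
    rw [bt_apply, hd] at h2
    rw [mul_assoc, S.tr_comm, mul_assoc]
    exact h2
  have hpsd' : psd S Φ ⊆ D' := hR A r ρ S Φ h D' hcc hnil' ⟨b, hbD, hbpd⟩
  refine Set.Subset.antisymm ?_ hpsd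
  intro d hd
  refine psd_iff'.2 ⟨st_phi h d, fun x => ?_⟩
  have h1 : S.Psd (x * S.st x) := psd_mul_st x
  obtain ⟨p, hp⟩ := (h.range _).1 h1.sa
  have hpD : p ∈ D' := hpsd' (by
    change S.Psd (Φ p)
    rw [hp]
    exact h1)
  have h2 := hpD d hd
  rw [bt_apply, hp] at h2
  rw [S.tr_comm, ← mul_assoc]
  exact h2

end Pool.Agent.L0h88.HZ
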